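import Pool.Agent.C4K.StPr

/-!
# Squad C4K: modules Q23, Q6 (helper85)
-/

set_option autoImplicit false

namespace Pool.Agent.C4K.H85

open Finset Cl
open scoped Classical

noncomputable section

/-- The weights are a probability. -/
theorem qq_prob {W : Type} {p : ℝ} (h0 : 0 < p) (h1 : p ≤ 1 / 2) :
    LLLA.IsProb (α := fun _ : W => Bool) (qq p) := by
  refine ⟨fun w a => ?_, fun w => ?_⟩
  · unfold qq
    cases a
    · simp only [Bool.false_eq_true, if_false]
      linarith
    · simp only [if_true]
      linarith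
  · unfold qq
    rw [Fintype.sum_bool]
    simp

/-- Mecke's formula as a bound for a probability. -/
theorem mec {V : Type} [Fintype V] {C : Cl V} {T : ℕ} {p : ℝ} (h0 : 0 < p) (h1 : p ≤ 1 / 2)
    (G : C.Wk T → (C.Wk T → Bool) → ℝ) (hG : ∀ w om, 0 ≤ G w om) {B : ℝ}
    (hB : ∀ om, p * ∑ w : C.Wk T, G w om ≤ B) (X : Set (C.Wk T → Bool))
    (hX : ∀ om ∈ X, ∃ w, om w = true ∧ 1 ≤ G w (rem om w)) : C.Pr T p X ≤ 2 * B := by
  have hq := qq_prob (W := C.Wk T) h0 h1
  unfold Cl.Pr
  rw [LLLA.Pr_eq_Ex]
  have h2 : LLLA.Ex (α := fun _ : C.Wk T => Bool) (qq p) (X.indicator fun _ => 1) ≤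
      LLLA.Ex (α := fun _ : C.Wk T => Bool) (qq p) (fun om => ∑ w, if om w = true then
        G w (Function.update om w false) else 0) := by
    apply LLLA.Ex_mono hq
    intro om
    have hnn : ∀ w, 0 ≤ (if om w = true then G w (Function.update om w false) else 0) := by
      intro w
      split_ifs
      · exact hG _ _
      · exact le_rfl
    by_cases hom : om ∈ X
    · rw [Set.indicator_of_mem hom]
      obtain ⟨w, hw, hw2⟩ := hX om hom
      refine le_trans ?_ (Finset.single_le_sum (fun w _ => hnn w) (Finset.mem_univ w))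
      rw [if_pos hw]
      exact hw2
    · rw [Set.indicator_of_notMem hom]
      exact Finset.sum_nonneg fun w _ => hnn w
  refine h2.trans ((LLLA.mecke_le hq (fun w => by unfold qq; simpa using h1) G hG).trans ?_)
  have h3 : LLLA.Ex (α := fun _ : C.Wk T => Bool) (qq p) (fun om => ∑ w, qq p w true *
      (if om w = false then G w om else 0)) ≤
      LLLA.Ex (α := fun _ : C.Wk T => Bool) (qq p) (fun _ => B) := by
    apply LLLA.Ex_mono hq
    intro om
    refine le_trans ?_ (hB om)
    rw [Finset.mul_sum]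
    apply Finset.sum_le_sum
    intro w _
    have e : qq p w true = p := by unfold qq; simp
    rw [e]
    apply mul_le_mul_of_nonneg_left _ h0.le
    split_ifs
    · exact le_rfl
    · exact hG _ _
  rw [LLLA.Ex_const hq] at h3
  linarith

theorem prs_nonneg (T : ℕ) (Q : ℕ → ℕ → Prop) : 0 ≤ prs T Q := by
  unfold prs
  positivity

theorem one_le_prs {T : ℕ} {Q : ℕ → ℕ → Prop} {i l : ℕ} (h1 : i ≤ l) (h2 : l < T) (h3 : Q i l) :
    1 ≤ prs T Q := by
  unfold prs
  have h : 0 < ((range T ×ˢ range T).filter fun x => x.1 ≤ x.2 ∧ Q x.1 x.2).card := by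
    apply Finset.card_pos.2
    refine ⟨(i, l), ?_⟩
    rw [Finset.mem_filter, Finset.mem_product, Finset.mem_range, Finset.mem_range]
    exact ⟨⟨lt_of_le_of_lt h1 h2, h2⟩, h1, h3⟩
  exact_mod_cast h

/-- `Q23`. -/
theorem q23 (hS : SSSStmt) (hP : PIMStmt) (hI : ITRStmt) : Q23Stmt := by
  intro V _ C d T p z r hpar v
  obtain ⟨s1, s2, s3⟩ := hS V C d T p z r hpar
  have hpim := hP V C d T hpar.ok
  have hfw : ∀ (L : ℕ) (om : C.Wk T → Bool) (y : V), (fw L om y).card ≤ L + 1 := by
    intro L om y
    have := (hI V (cx om)).fwd L y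
    exact this
  have hbw : ∀ (L : ℕ) (om : C.Wk T → Bool) (y : V), (bw L om y).card ≤ L + 1 := by
    intro L om y
    have := (hI V (cx om)).bwd (hpim.inj om) L y
    exact this
  refine ⟨?_, ?_, ?_⟩
  · intro t0
    have h := mec hpar.p0 hpar.ph
      (fun w om => prs T (fun i l => w.n l = v ∧ ∃ y, w.hd l y ∧ w.n i ∈ fw t0 om y))
      (fun _ _ => prs_nonneg _ _) (B := 10 * r * (t0 + 1) / d) (by
        intro om
        apply s2 (fun y => fw t0 om y) t0 v (fun y => hfw t0 om y)
        refine le_trans (le_of_eq ?_) (hbw t0 om v)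
        congr 1
        ext y
        simp only [fw, bw, Finset.mem_filter, Finset.mem_univ, true_and]) {om | Jt t0 om v} (by
        rintro om ⟨w, i, l, t, ht, ⟨hw, hil, hl, y, hy, hit⟩, hwv⟩
        refine ⟨w, hw, one_le_prs hil hl ⟨hwv, y, hy, ?_⟩⟩
        simp only [fw, Finset.mem_filter, Finset.mem_univ, true_and]
        exact ⟨t, ht, hit⟩)
    refine h.trans (le_of_eq ?_)
    ring
  · intro t0
    have h := mec hpar.p0 hpar.ph
      (fun w om => prs T (fun i l => w.hd l v ∧ w.n i ∈ fw t0 om v))
      (fun _ _ => prs_nonneg _ _) (B := 10 * r * (t0 + 1) / d) (by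
        intro om
        exact s3 (fw t0 om v) t0 v (hfw t0 om v)) {om | Jh t0 om v} (by
        rintro om ⟨w, i, l, t, ht, ⟨hw, hil, hl, y, hy, hit⟩, hwv⟩
        have hyv : y = v := by
          have h1 : C.f (w.n (l + 1)) = some y := hy
          have h2 : C.f (w.n (l + 1)) = some v := hwv
          rw [h1] at h2
          exact Option.some_injective _ h2
        refine ⟨w, hw, one_le_prs hil hl ⟨hwv, ?_⟩⟩
        simp only [fw, Finset.mem_filter, Finset.mem_univ, true_and]
        rw [hyv] at hit
        exact ⟨t, ht, hit⟩)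
    refine h.trans (le_of_eq ?_)
    ring
  · intro t1 t ht
    exact mec hpar.p0 hpar.ph
      (fun w om => prs T (fun i l => w.n i ∈ fw t om v ∧ ∃ y ∈ bw t om v, w.hd l y))
      (fun _ _ => prs_nonneg _ _) (by
        intro om
        exact s1 (fw t om v) (bw t om v) t ht (hfw t om v) (hbw t om v)) {om | Iv t1 t om v} (by
        rintro om ⟨w, i, l, y, j, j', hw, hil, hl, hy, h1, h2, h3, h4⟩
        refine ⟨w, hw, one_le_prs hil hl ⟨?_, y, ?_, hy⟩⟩
        · simp only [fw, Finset.mem_filter, Finset.mem_univ, true_and]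
          exact ⟨j', by omega, h2⟩
        · simp only [bw, Finset.mem_filter, Finset.mem_univ, true_and]
          exact ⟨j, by omega, h1⟩)

/-- `Q6`. -/
theorem q6 (hH : HITStmt) : Q6Stmt := by
  intro V _ C d T p z r s1 hpar hlow I hI h1 h2
  have hq := qq_prob (W := C.Wk T) hpar.p0 hpar.ph
  have hit := hH V C d T p z r s1 hpar hlow I hI h1 h2
  set A : Finset (C.Wk T) := univ.filter fun w => w.meets I with hA
  have hsub : C.Pr T p {om | ∀ u ∈ I, mult om u = 0} ≤
      LLLA.Ex (α := fun _ : C.Wk T => Bool) (qq p)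
        (fun om => ∏ w ∈ A, if om w = false then (1 : ℝ) else 0) := by
    unfold Cl.Pr
    rw [LLLA.Pr_eq_Ex]
    apply LLLA.Ex_mono hq
    intro om
    by_cases hom : om ∈ {om : C.Wk T → Bool | ∀ u ∈ I, mult om u = 0}
    · rw [Set.indicator_of_mem hom]
      apply le_of_eq
      symm
      apply Finset.prod_eq_one
      intro w hw
      rw [if_pos]
      by_contra hne
      have hwt : om w = true := by simpa using hne
      obtain ⟨i, hi, hu⟩ := (Finset.mem_filter.1 hw).2
      have h3 := hom _ hu
      unfold mult at h3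
      rw [Finset.card_eq_zero] at h3
      have h4 : w ∈ univ.filter fun w' : C.Wk T => om w' = true ∧ w'.has (w.n i) := by
        rw [Finset.mem_filter]
        exact ⟨Finset.mem_univ _, hwt, i, hi, rfl⟩
      rw [h3] at h4
      exact absurd h4 (Finset.notMem_empty _)
    · rw [Set.indicator_of_notMem hom]
      apply Finset.prod_nonneg
      intro w _
      split_ifs
      · exact zero_le_one
      · exact le_rfl
  refine hsub.trans ?_
  rw [LLLA.Ex_prod hq A (fun w => {w}) (by
    intro i _ j _ hij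
    rw [Finset.disjoint_singleton]
    exact hij) (fun w om => if om w = false then (1 : ℝ) else 0) (by
    intro w _ om eta h
    have h3 : om w = eta w := h w (Finset.mem_singleton_self w)
    simp only [h3])]
  have h3 : ∀ w ∈ A, LLLA.Ex (α := fun _ : C.Wk T => Bool) (qq p)
      (fun om => if om w = false then (1 : ℝ) else 0) = 1 - p := by
    intro w _
    rw [LLLA.Ex_coord (α := fun _ : C.Wk T => Bool) hq w false]
    unfold qq
    simp
  rw [Finset.prod_congr rfl h3, Finset.prod_const]
  have h4 : 1 - p ≤ Real.exp (-p) := by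
    have := Real.add_one_le_exp (-p)
    linarith
  have h5 : 0 ≤ 1 - p := by linarith [hpar.ph]
  refine (pow_le_pow_left₀ h5 h4 _).trans ?_
  rw [← Real.exp_nat_mul]
  apply Real.exp_le_exp.2
  have h6 : r * I.card / 12 ≤ p * (A.card : ℝ) := hit
  linarith

end

end Pool.Agent.C4K.H85
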